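import Mathlib
import Pool.Agent.TH278.DX.Defs3
import Pool.Agent.TH576.J4447
import Pool.Agent.TH228.J4953
import Pool.Agent.TH889.J5187
set_option autoImplicit false

/-!
# Averaging over an amenable group, keeping the unitary operators that commute with it
-/

namespace Pool.Agent.TH855.Prod

open Pool.Agent.TH278.DX Pool.Agent.TH889.J5187
open scoped ComplexConjugate

theorem average {G H : Type} [Group G] [NormedAddCommGroup H]
    [InnerProductSpace ℂ H] [CompleteSpace H] (hG : Amenable G) (π : G →* (H →L[ℂ] H)ˣ) (c : ℝ)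
    (hπ : Bdd π c) : ∃ κ : ℝ, 1 ≤ κ ∧ ∃ D : H →L[ℂ] H,
      (∀ x y : H, inner ℂ (D x) y = inner ℂ x (D y)) ∧
      (∀ x : H, 1 * ‖x‖ ^ 2 ≤ (inner ℂ (D x) x).re) ∧
      (∀ x : H, (inner ℂ (D x) x).re ≤ κ ^ 2 * ‖x‖ ^ 2) ∧
      (∀ (g : G) (x y : H), inner ℂ (D (((π g : (H →L[ℂ] H)ˣ) : H →L[ℂ] H) x))
        (((π g : (H →L[ℂ] H)ˣ) : H →L[ℂ] H) y) = inner ℂ (D x) y) ∧
      ∀ V : H →L[ℂ] H, (∀ x y : H, (inner ℂ (V x) (V y) : ℂ) = inner ℂ x y) →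
        (∀ (g : G) (x : H), V (((π g : (H →L[ℂ] H)ˣ) : H →L[ℂ] H) x) =
          ((π g : (H →L[ℂ] H)ˣ) : H →L[ℂ] H) (V x)) →
        ∀ x y : H, inner ℂ (D (V x)) (V y) = inner ℂ (D x) y := by
  obtain ⟨M, hadd, hsmul, hconst, hnorm, hinv⟩ := j4953_exists hG
  obtain ⟨k, hk1, hk⟩ : ∃ k : ℝ, 1 ≤ k ∧ Bdd π k :=
    ⟨max c 1, le_max_right _ _, fun g => (hπ g).trans (le_max_left _ _)⟩
  have hk0 : 0 < k := by linarith
  set U : G → (H →L[ℂ] H) := fun g => ((π g : (H →L[ℂ] H)ˣ) : H →L[ℂ] H) with hU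
  have hUmul : ∀ g h (x : H), U (g * h) x = U g (U h x) := fun g h x => by simp [hU]
  have hUU' : ∀ g (x : H), U g⁻¹ (U g x) = x := fun g x => by
    have : U g⁻¹ * U g = 1 := by simp [hU]
    calc U g⁻¹ (U g x) = (U g⁻¹ * U g) x := rfl
      _ = x := by rw [this]; rfl
  have hUn : ∀ g (x : H), ‖U g x‖ ≤ k * ‖x‖ := fun g x =>
    ((U g).le_opNorm x).trans (mul_le_mul_of_nonneg_right (hk g) (norm_nonneg _))
  have hUl : ∀ g (x : H), ‖x‖ ≤ k * ‖U g x‖ := by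
    intro g x
    calc ‖x‖ = ‖U g⁻¹ (U g x)‖ := by rw [hUU']
      _ ≤ k * ‖U g x‖ := hUn _ _
  -- the invariant form
  have hbd : ∀ v w : H, ∀ g : G, ‖(inner ℂ (U g⁻¹ v) (U g⁻¹ w) : ℂ)‖ ≤ k ^ 2 * ‖v‖ * ‖w‖ := by
    intro v w g
    refine (norm_inner_le_norm _ _).trans ?_
    calc ‖U g⁻¹ v‖ * ‖U g⁻¹ w‖ ≤ (k * ‖v‖) * (k * ‖w‖) :=
          mul_le_mul (hUn _ _) (hUn _ _) (norm_nonneg _) (by positivity)
      _ = _ := by ring
  have hbd' : ∀ v w : H, ∃ C, ∀ g : G, ‖(inner ℂ (U g⁻¹ v) (U g⁻¹ w) : ℂ)‖ ≤ C :=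
    fun v w => ⟨_, hbd v w⟩
  let B0 : H →ₗ⋆[ℂ] H →ₗ[ℂ] ℂ := LinearMap.mk₂'ₛₗ (starRingEnd ℂ) (RingHom.id ℂ)
    (fun v w => M (fun g => inner ℂ (U g⁻¹ v) (U g⁻¹ w)))
    (by
      intro v v' w
      have : (fun g : G => (inner ℂ (U g⁻¹ (v + v')) (U g⁻¹ w) : ℂ)) =
          fun g => inner ℂ (U g⁻¹ v) (U g⁻¹ w) + inner ℂ (U g⁻¹ v') (U g⁻¹ w) := by
        funext g
        rw [map_add, inner_add_left]
      show M (fun g => inner ℂ (U g⁻¹ (v + v')) (U g⁻¹ w)) = _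
      rw [this]
      exact hadd _ _ (hbd' v w) (hbd' v' w))
    (by
      intro r v w
      have : (fun g : G => (inner ℂ (U g⁻¹ (r • v)) (U g⁻¹ w) : ℂ)) =
          fun g => conj r * inner ℂ (U g⁻¹ v) (U g⁻¹ w) := by
        funext g
        rw [map_smul, inner_smul_left]
      show M (fun g => inner ℂ (U g⁻¹ (r • v)) (U g⁻¹ w)) = _
      rw [this]
      exact hsmul _ _ (hbd' v w))
    (by
      intro v w w'
      have : (fun g : G => (inner ℂ (U g⁻¹ v) (U g⁻¹ (w + w')) : ℂ)) =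
          fun g => inner ℂ (U g⁻¹ v) (U g⁻¹ w) + inner ℂ (U g⁻¹ v) (U g⁻¹ w') := by
        funext g
        rw [map_add, inner_add_right]
      show M (fun g => inner ℂ (U g⁻¹ v) (U g⁻¹ (w + w'))) = _
      rw [this]
      exact hadd _ _ (hbd' v w) (hbd' v w'))
    (by
      intro r v w
      have : (fun g : G => (inner ℂ (U g⁻¹ v) (U g⁻¹ (r • w)) : ℂ)) =
          fun g => r * inner ℂ (U g⁻¹ v) (U g⁻¹ w) := by
        funext g
        rw [map_smul, inner_smul_right]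
      show M (fun g => inner ℂ (U g⁻¹ v) (U g⁻¹ (r • w))) = _
      rw [this]
      exact hsmul _ _ (hbd' v w))
  have hB0 : ∀ v w, B0 v w = M (fun g => inner ℂ (U g⁻¹ v) (U g⁻¹ w)) := fun v w => rfl
  let B : H →L⋆[ℂ] H →L[ℂ] ℂ := LinearMap.mkContinuous₂ B0 (k ^ 2) (by
    intro v w
    rw [hB0]
    exact hnorm _ _ (hbd v w))
  have hB : ∀ v w, B v w = M (fun g => inner ℂ (U g⁻¹ v) (U g⁻¹ w)) := fun v w => rfl
  let A : H →L[ℂ] H := InnerProductSpace.continuousLinearMapOfBilin B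
  have hA : ∀ v w, inner ℂ (A v) w = M (fun g => inner ℂ (U g⁻¹ v) (U g⁻¹ w)) := by
    intro v w
    rw [← hB]
    exact InnerProductSpace.continuousLinearMapOfBilin_apply B v w
  have hAinv : ∀ h v w, (inner ℂ (A (U h v)) (U h w) : ℂ) = inner ℂ (A v) w := by
    intro h v w
    rw [hA, hA, ← hinv h⁻¹ (fun g => inner ℂ (U g⁻¹ v) (U g⁻¹ w)) (hbd' _ _)]
    congr 1
    funext g
    have e : (h⁻¹ * g)⁻¹ = g⁻¹ * h := by group
    rw [e, hUmul, hUmul]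
  have hArange : ∀ v, ‖v‖ ^ 2 / k ^ 2 ≤ (inner ℂ (A v) v : ℂ).re ∧
      (inner ℂ (A v) v : ℂ).re ≤ k ^ 2 * ‖v‖ ^ 2 := by
    intro v
    have e : (fun g : G => (inner ℂ (U g⁻¹ v) (U g⁻¹ v) : ℂ)) =
        fun g => ((‖U g⁻¹ v‖ ^ 2 : ℝ) : ℂ) := by
      funext g
      rw [inner_self_eq_norm_sq_to_K]
      push_cast
      rfl
    rw [hA, e]
    refine mean_re hadd hconst hnorm (fun g => ‖U g⁻¹ v‖ ^ 2) _ _ (fun g => ?_) (fun g => ?_)
    · rw [div_le_iff₀ (by positivity)]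
      have h1 := hUl g⁻¹ v
      calc ‖v‖ ^ 2 ≤ (k * ‖U g⁻¹ v‖) ^ 2 := pow_le_pow_left₀ (norm_nonneg _) h1 2
        _ = _ := by ring
    · calc ‖U g⁻¹ v‖ ^ 2 ≤ (k * ‖v‖) ^ 2 := pow_le_pow_left₀ (norm_nonneg _) (hUn _ _) 2
        _ = _ := by ring
  set D : H →L[ℂ] H := ((k ^ 2 / 2 : ℝ) : ℂ) • (A + ContinuousLinearMap.adjoint A) with hDdef
  have hD : ∀ v w, (inner ℂ (D v) w : ℂ) =
      ((k ^ 2 / 2 : ℝ) : ℂ) * (inner ℂ (A v) w + inner ℂ v (A w)) := by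
    intro v w
    rw [hDdef, smul_apply, inner_smul_left, Complex.conj_ofReal, add_apply,
      inner_add_left, ContinuousLinearMap.adjoint_inner_left]
  have hDre : ∀ v, (inner ℂ (D v) v : ℂ).re = k ^ 2 * (inner ℂ (A v) v : ℂ).re := by
    intro v
    rw [hD, Complex.re_ofReal_mul, Complex.add_re]
    have h1 : (inner ℂ v (A v) : ℂ).re = (inner ℂ (A v) v : ℂ).re := by
      rw [← inner_conj_symm, Complex.conj_re]
    rw [h1]
    ring
  refine ⟨k ^ 2, by nlinarith, D, ?_, ?_, ?_, ?_, ?_⟩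
  · intro x y
    rw [← inner_conj_symm x (D y), hD, hD, map_mul, Complex.conj_ofReal, map_add,
      inner_conj_symm, inner_conj_symm]
    ring
  · intro x
    rw [hDre, one_mul]
    have h1 := (hArange x).1
    rw [div_le_iff₀ (by positivity)] at h1
    linarith
  · intro x
    rw [hDre]
    have h1 := mul_le_mul_of_nonneg_left (hArange x).2 (by positivity : (0 : ℝ) ≤ k ^ 2)
    linarith
  · intro g x y
    show (inner ℂ (D (U g x)) (U g y) : ℂ) = inner ℂ (D x) y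
    rw [hD, hD, hAinv]
    congr 2
    rw [← inner_conj_symm (U g x), hAinv, inner_conj_symm]
  · intro V hV hcomm x y
    have hAV : ∀ v w, (inner ℂ (A (V v)) (V w) : ℂ) = inner ℂ (A v) w := by
      intro v w
      rw [hA, hA]
      congr 1
      funext g
      show (inner ℂ (U g⁻¹ (V v)) (U g⁻¹ (V w)) : ℂ) = inner ℂ (U g⁻¹ v) (U g⁻¹ w)
      have e : ∀ z, U g⁻¹ (V z) = V (U g⁻¹ z) := fun z => (hcomm g⁻¹ z).symm
      rw [e, e, hV]
    rw [hD, hD, hAV]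
    congr 2
    rw [← inner_conj_symm (V x), hAV, inner_conj_symm]

end Pool.Agent.TH855.Prod
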